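import Pool.Agent.Lib.MP_f46d6a.Mean

/-!
# Averages over squares
-/

set_option autoImplicit false

open MeasureTheory Set Filter Topology
open scoped ContDiff

namespace Pool.Agent.Lib.MP_f46d6a

open Pool.Agent.Lib.MP_dac83a

theorem int_ball {k : P → ℝ} (hk : Integrable k) {r : ℝ} (hr : 0 < r) :
    Integrable (fun x => ∫ z in Metric.closedBall x r, k z) ∧
    ∫ x, (∫ z in Metric.closedBall x r, k z) = 4 * r ^ 2 * ∫ z, k z := by
  set χ : P → ℝ := (Metric.closedBall (0 : P) r).indicator fun _ => 1 with hχ
  have hχi : Integrable χ := (integrable_indicator_iff measurableSet_closedBall).2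
    (integrableOn_const (isCompact_closedBall (0 : P) r).measure_ne_top)
  have hχ1 : ∫ z, χ z = 4 * r ^ 2 := by
    rw [hχ, integral_indicator measurableSet_closedBall, setIntegral_const, smul_eq_mul, mul_one]
    rw [← Prod.mk.eta (p := (0 : P)), ← closedBall_prod_same, Measure.real, Measure.volume_eq_prod,
      Measure.prod_prod, Real.volume_closedBall, Real.volume_closedBall,
      ← ENNReal.ofReal_mul (by positivity), ENNReal.toReal_ofReal (by positivity)]
    ring
  have e : (fun x => ∫ z in Metric.closedBall x r, k z)
      = convolution k χ (ContinuousLinearMap.mul ℝ ℝ) volume := by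
    ext x
    rw [convolution_def, ← integral_indicator measurableSet_closedBall]
    congr 1
    ext z
    by_cases hz : z ∈ Metric.closedBall x r
    · have h' : x - z ∈ Metric.closedBall (0 : P) r := by
        rw [Metric.mem_closedBall, dist_zero_right, ← dist_eq_norm, dist_comm]
        exact Metric.mem_closedBall.1 hz
      rw [indicator_of_mem hz, hχ, indicator_of_mem h']
      simp
    · have h' : x - z ∉ Metric.closedBall (0 : P) r := by
        intro h
        rw [Metric.mem_closedBall, dist_zero_right, ← dist_eq_norm, dist_comm] at h
        exact hz (Metric.mem_closedBall.2 h)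
      rw [indicator_of_notMem hz, hχ, indicator_of_notMem h']
      simp
  rw [e]
  refine ⟨hk.integrable_convolution _ hχi, ?_⟩
  rw [integral_convolution _ hk hχi, hχ1]
  simp [mul_comm]

end Pool.Agent.Lib.MP_f46d6a
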