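import Pool.Agent.Lib.MP_f46d6a_h23.Inner4

/-!
# Inner variations of the optimal set
-/

set_option autoImplicit false

open MeasureTheory Set Filter Topology
open scoped ContDiff NNReal

namespace Pool.Agent.Lib.MP_f46d6a.H23

open Pool.Agent.Lib.MP_dac83a

section

variable {X Y : P → ℝ} (hX : IsTest univ X) (hY : IsTest univ Y)

include hX hY

theorem lam_lower {Ω : Set P} (hΩ : IsOpen Ω) (hne : Ω.Nonempty) {φ φx φy : P → ℝ} {γ : ℝ} (hγ : 0 < γ)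
    (he : Eigf Ω 1 φ φx φy) (hn : ∫ z, φ z ^ 2 = 1)
    (hgap : ∀ v a b, H0 Ω v a b → ∫ z, v z * φ z = 0 →
      (1 + γ) * ∫ z, v z ^ 2 ≤ ∫ z, (a z ^ 2 + b z ^ 2)) :
    ∃ C t1 : ℝ, 0 < t1 ∧ ∀ t, |t| ≤ t1 →
      1 + t * ((∫ z, e1 X Y φx φy z) - ∫ z, φ z ^ 2 * dv X Y z) - C * t ^ 2 ≤ lamP (Ph X Y t '' Ω) := by
  obtain ⟨M, t0, ht0, hd⟩ := exists_dfm hX hY
  have hM : 1 ≤ M := (hd 0 (by simpa using ht0.le)).some.hM
  set ℓ := (∫ z, e1 X Y φx φy z) - ∫ z, φ z ^ 2 * dv X Y z with hℓ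
  obtain ⟨c0, hc0⟩ : ∃ c0, c0 = γ / (1 + γ) := ⟨_, rfl⟩
  obtain ⟨δ, hδ⟩ : ∃ δ, δ = c0 / 32 := ⟨_, rfl⟩
  obtain ⟨K, hK⟩ : ∃ K, K = 2 * M + |ℓ| := ⟨_, rfl⟩
  have hc0p : 0 < c0 := by rw [hc0]; positivity
  have hδp : 0 < δ := by rw [hδ]; positivity
  have hKp : 0 < K := by rw [hK]; positivity
  refine ⟨16 * (M ^ 2 + M * |ℓ|) + 60 * M ^ 2 + 8 * (K ^ 2 / δ), min (min t0 1) (min (δ / K) (c0 / (240 * M ^ 2))), by positivity, fun t ht => ?_⟩
  have h1 : |t| ≤ t0 := ht.trans ((min_le_left _ _).trans (min_le_left _ _))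
  have h2 : |t| ≤ 1 := ht.trans ((min_le_left _ _).trans (min_le_right _ _))
  have h3 : |t| ≤ δ / K := ht.trans ((min_le_right _ _).trans (min_le_left _ _))
  have h4 : |t| ≤ c0 / (240 * M ^ 2) := ht.trans ((min_le_right _ _).trans (min_le_right _ _))
  obtain ⟨d⟩ := hd t h1
  have ht1 : |t| * K ≤ δ := by rwa [le_div_iff₀ hKp] at h3
  have ht2 : 30 * M ^ 2 * t ^ 2 ≤ c0 / 8 := by
    have a1 : t ^ 2 ≤ |t| := by
      rw [← sq_abs]
      nlinarith [abs_nonneg t]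
    rw [le_div_iff₀ (by positivity)] at h4
    nlinarith [sq_nonneg M]
  exact lamP_ge (isOpen_image d hΩ) (hne.image _) fun η hη =>
    lam_test hX hY d hγ he hn hgap hℓ hc0 hδ hK ht1 ht2 rfl hη

theorem tor_lower {Ω : Set P} (hΩ : IsOpen Ω) (hf : volume Ω ≠ ⊤) {w wx wy : P → ℝ} {t M : ℝ}
    (d : Dfm X Y t M) (ht : Tor Ω w wx wy) (hT : torP Ω = ∫ z, w z) :
    torP Ω + t * (2 * (∫ z, w z * dv X Y z) - ∫ z, e1 X Y wx wy z)
      + t ^ 2 * (2 * (∫ z, w z * mm X Y z) - 30 * M ^ 2 * torP Ω) ≤ torP (Ph X Y t '' Ω) := by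
  have hw := ht.mem
  obtain ⟨⟨c1, s1⟩, ⟨c2, s2⟩⟩ := int_div_mm hX hY
  have m1 : MemLp (dv X Y) 2 volume := c1.memLp_of_hasCompactSupport s1
  have m2 : MemLp (mm X Y) 2 volume := c2.memLp_of_hasCompactSupport s2
  have hz := hw.zero_off
  obtain ⟨φ, hφ, q1, q2, q3⟩ := hw.app
  have hE : ∫ z, (wx z ^ 2 + wy z ^ 2) = torP Ω := by
    rw [hT, ← ht.eq w wx wy hw]
    congr 1; ext z; ring
  -- limits
  have l0 := (q1.l1 hΩ.measurableSet hf (fun n => (off_of_test (hφ n)).1)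
    (by filter_upwards [hz] with z hz h' using (hz h').1)).2
  have l1 := q1.integral_mul (Conv2.const m1)
  have l2 := q1.integral_mul (Conv2.const m2)
  have l3 := (q2.integral_sq).add (q3.integral_sq)
  have l4 := lim_e1 hX hY q2 q3
  have hlim := (((l0.add ((l1.const_mul t).add (l2.const_mul (t ^ 2)))).const_mul 2).sub
    (l3.const_mul (1 + 30 * M ^ 2 * t ^ 2))).sub (l4.const_mul t)
  have hsum : (∫ z, wx z ^ 2) + ∫ z, wy z ^ 2 = torP Ω := by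
    rw [← hE, integral_add hw.ma.integrable_sq hw.mb.integrable_sq]
  rw [hsum, ← hT] at hlim
  refine (le_of_eq ?_).trans (le_of_tendsto' hlim (fun n => ?_))
  · ring
  · have hη := test_push d (hφ n)
    have hU := isOpen_image d hΩ
    have hUf := (vol_image hX hY d hΩ hf).1
    have h1 := torP_ge_test hU hUf hη
    have hpull : φ n = fun z => (fun z => φ n (d.e.symm z)) (Ph X Y t z) := by
      ext z
      simp only
      rw [← d.he, d.e.symm_apply_apply]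
    have h2 := En_two hX hY d hη hpull
    have h3 : ∫ z, φ n (d.e.symm z) = ∫ z, φ n z * Dt X Y t z := by
      rw [cov hX hY d]
      congr 1; ext z
      rw [← d.he, d.e.symm_apply_apply]
    have i1 : HI (φ n) (∫ z, φ n z) := HI.of (hφ n).integrable
    have i2 : HI (fun z => φ n z * dv X Y z) (∫ z, φ n z * dv X Y z) := HI.of (integrable_mul2 (hφ n).memLp m1)
    have i3 : HI (fun z => φ n z * mm X Y z) (∫ z, φ n z * mm X Y z) := HI.of (integrable_mul2 (hφ n).memLp m2)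
    have h4 : ∫ z, φ n z * Dt X Y t z = (∫ z, φ n z) + (t * (∫ z, φ n z * dv X Y z) +
        t ^ 2 * ∫ z, φ n z * mm X Y z) := by
      refine ((i1.add ((i2.mul t).add (i3.mul (t ^ 2)))).congr (fun z => ?_) rfl).e
      unfold Dt; ring
    have h5 : ∫ z, (dd ex (φ n) z ^ 2 + dd ey (φ n) z ^ 2) = (∫ z, dd ex (φ n) z ^ 2) + ∫ z, dd ey (φ n) z ^ 2 :=
      integral_add ((hφ n).dd ex).int_sq ((hφ n).dd ey).int_sq
    rw [h3, h4] at h1
    rw [h5] at h2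
    have h6 := (abs_le.1 h2).2
    linarith

end

/-- first order condition from a one sided bound -/
theorem deriv_zero {α ℓ C T τ1 τ2 V v1 v2 t1 : ℝ} (hα0 : 0 < α) (hα : α < 1) (hV : 0 < V) (hT : 0 < T)
    (ht1 : 0 < t1)
    (h : ∀ t, |t| ≤ t1 → (1 + t * ℓ - C * t ^ 2) ^ α * (T + t * τ1 + t ^ 2 * τ2) * V ^ (2 - α)
      ≤ T * (V + t * v1 + t ^ 2 * v2) ^ (2 - α)) :
    α * T * ℓ + τ1 - (2 - α) * T / V * v1 = 0 := by
  obtain ⟨F, hF⟩ : ∃ F : ℝ → ℝ, F = fun t => (1 + t * ℓ - C * t ^ 2) ^ α * (T + t * τ1 + t ^ 2 * τ2) * V ^ (2 - α)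
      - T * (V + t * v1 + t ^ 2 * v2) ^ (2 - α) := ⟨_, rfl⟩
  have hF0 : F 0 = 0 := by rw [hF]; simp
  have hloc : IsLocalMax F 0 := by
    have : Metric.ball (0 : ℝ) t1 ∈ 𝓝 (0 : ℝ) := Metric.ball_mem_nhds _ ht1
    filter_upwards [this] with t ht
    rw [Metric.mem_ball, Real.dist_eq, sub_zero] at ht
    rw [hF0, hF]
    have := h t ht.le
    simp only
    linarith
  have quad : ∀ a b c : ℝ, HasDerivAt (fun t : ℝ => a + t * b + t ^ 2 * c) b 0 := fun a b c => by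
    have h1 : HasDerivAt (fun t : ℝ => t ^ 2) 0 0 := by simpa using hasDerivAt_pow 2 (0 : ℝ)
    exact ((((hasDerivAt_id' (0:ℝ)).mul_const b).const_add a).fun_add (h1.mul_const c)).congr_deriv (by ring)
  have d1 : HasDerivAt (fun t : ℝ => 1 + t * ℓ - C * t ^ 2) ℓ 0 := by
    have := quad 1 ℓ (-C)
    have e : (fun t : ℝ => 1 + t * ℓ - C * t ^ 2) = fun t : ℝ => 1 + t * ℓ + t ^ 2 * (-C) := by
      ext t; ring
    rw [e]; exact this
  have d2 := quad T τ1 τ2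
  have d3 := quad V v1 v2
  have d4 := d1.rpow_const (p := α) (Or.inl (by simp))
  have d5 := d3.rpow_const (p := 2 - α) (Or.inl (by simp [hV.ne']))
  have d6 := ((d4.fun_mul d2).mul_const (V ^ (2 - α))).fun_sub (d5.const_mul T)
  have d7 : HasDerivAt F ((ℓ * α * T + τ1) * V ^ (2 - α) - T * (v1 * (2 - α) * V ^ (2 - α - 1))) 0 := by
    rw [hF]
    exact d6.congr_deriv (by simp)
  have h0 := hloc.hasDerivAt_eq_zero d7
  have hVp : (0:ℝ) < V ^ (2 - α) := Real.rpow_pos_of_pos hV _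
  have hV1 : V ^ (2 - α - 1) = V ^ (2 - α) / V := by rw [Real.rpow_sub_one hV.ne']
  rw [hV1] at h0
  have : (α * T * ℓ + τ1 - (2 - α) * T / V * v1) * V ^ (2 - α) = 0 := by
    rw [← h0]; field_simp
  exact (mul_eq_zero.1 this).resolve_right hVp.ne'

theorem inner {Ω : Set P} (hΩ : IsOpen Ω) (hne : Ω.Nonempty) (hf : volume Ω ≠ ⊤) {α γ : ℝ}
    (hα0 : 0 < α) (hα : α < 1) (hγ : 0 < γ)
    {w wx wy φ φx φy : P → ℝ} (ht : Tor Ω w wx wy) (hT : torP Ω = ∫ z, w z) (he : Eigf Ω 1 φ φx φy)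
    (hl : lamP Ω = 1) (hn : ∫ z, φ z ^ 2 = 1)
    (hgap : ∀ v a b, H0 Ω v a b → ∫ z, v z * φ z = 0 →
      (1 + γ) * ∫ z, v z ^ 2 ≤ ∫ z, (a z ^ 2 + b z ^ 2)) (opt : Opt α Ω) :
    StressId (fun z => (wx z ^ 2 - wy z ^ 2) - α * torP Ω * (φx z ^ 2 - φy z ^ 2))
      (fun z => 2 * (wx z * wy z - α * torP Ω * (φx z * φy z)))
      (fun z => 2 * w z - α * torP Ω * φ z ^ 2 - Ω.indicator (fun _ => (2 - α) * torP Ω / vol Ω) z) := by
  intro X Y hX hY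
  have hV := vol_pos hΩ hne hf
  have hTp := torP_pos hΩ hne hf
  obtain ⟨C, ta, hta, hlam⟩ := lam_lower hX hY hΩ hne hγ he hn hgap
  obtain ⟨M, tb, htb, hd⟩ := exists_dfm hX hY
  obtain ⟨T, hTT⟩ : ∃ T, T = torP Ω := ⟨_, rfl⟩
  obtain ⟨V, hVV⟩ : ∃ V, V = vol Ω := ⟨_, rfl⟩
  obtain ⟨ℓ, hℓ⟩ : ∃ ℓ, ℓ = (∫ z, e1 X Y φx φy z) - ∫ z, φ z ^ 2 * dv X Y z := ⟨_, rfl⟩
  obtain ⟨τ1, hτ1⟩ : ∃ τ1, τ1 = 2 * (∫ z, w z * dv X Y z) - ∫ z, e1 X Y wx wy z := ⟨_, rfl⟩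
  obtain ⟨τ2, hτ2⟩ : ∃ τ2, τ2 = 2 * (∫ z, w z * mm X Y z) - 30 * M ^ 2 * torP Ω := ⟨_, rfl⟩
  rw [← hTT] at hTp
  rw [← hVV] at hV
  -- positivity of the quadratic lower bounds near zero
  have n1 : ∀ᶠ t : ℝ in 𝓝 0, 0 < 1 + t * ℓ - C * t ^ 2 := by
    have : Continuous fun t : ℝ => 1 + t * ℓ - C * t ^ 2 := by fun_prop
    exact this.continuousAt.eventually_const_lt (by simp)
  have n2 : ∀ᶠ t : ℝ in 𝓝 0, 0 < T + t * τ1 + t ^ 2 * τ2 := by
    have : Continuous fun t : ℝ => T + t * τ1 + t ^ 2 * τ2 := by fun_prop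
    exact this.continuousAt.eventually_const_lt (by simpa using hTp)
  obtain ⟨tc, htc, hc⟩ := Metric.eventually_nhds_iff.1 (n1.and n2)
  have key : α * T * ℓ + τ1 - (2 - α) * T / V * (∫ z in Ω, dv X Y z) = 0 := by
    refine deriv_zero (C := C) (τ2 := τ2) (v2 := ∫ z in Ω, mm X Y z) (t1 := min (min ta tb) (tc / 2))
      hα0 hα hV hTp (by positivity) fun t htt => ?_
    have a1 : |t| ≤ ta := htt.trans ((min_le_left _ _).trans (min_le_left _ _))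
    have a2 : |t| ≤ tb := htt.trans ((min_le_left _ _).trans (min_le_right _ _))
    have a3 : |t| < tc := lt_of_le_of_lt (htt.trans (min_le_right _ _)) (by linarith)
    obtain ⟨p1, p2⟩ := hc (y := t) (by simpa [Real.dist_eq] using a3)
    obtain ⟨d⟩ := hd t a2
    have b1 := hlam t a1
    have b2 := tor_lower hX hY hΩ hf d ht hT
    obtain ⟨b3, b4⟩ := vol_image hX hY d hΩ hf
    have b5 := opt _ (isOpen_image d hΩ) (hne.image _) b3
    rw [hl, Real.one_rpow, one_mul, b4] at b5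
    rw [← hℓ] at b1
    rw [← hτ1, ← hτ2] at b2
    rw [← hTT] at b2 b5
    rw [← hVV] at b5
    refine le_trans ?_ b5
    have c1 : (1 + t * ℓ - C * t ^ 2) ^ α ≤ lamP (Ph X Y t '' Ω) ^ α :=
      Real.rpow_le_rpow p1.le b1 hα0.le
    have c2 : 0 ≤ lamP (Ph X Y t '' Ω) ^ α := Real.rpow_nonneg (p1.le.trans b1) _
    gcongr
  -- identify the integral
  have hw := ht.mem
  have hHφ := he.mem
  obtain ⟨⟨c1, s1⟩, ⟨c2, s2⟩⟩ := int_div_mm hX hY
  have m1 : MemLp (dv X Y) 2 volume := c1.memLp_of_hasCompactSupport s1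
  obtain ⟨Cb, hb1, hb2, hb3, hb4⟩ := bounds hX hY
  have i1 : HI (fun z => e1 X Y wx wy z) (∫ z, e1 X Y wx wy z) := HI.of (int_e1 hX hY hw.ma hw.mb).1
  have i2 : HI (fun z => e1 X Y φx φy z) (∫ z, e1 X Y φx φy z) := HI.of (int_e1 hX hY hHφ.ma hHφ.mb).1
  have i3 : HI (fun z => w z * dv X Y z) (∫ z, w z * dv X Y z) := HI.of (integrable_mul2 hw.mu m1)
  have i4 : HI (fun z => φ z ^ 2 * dv X Y z) (∫ z, φ z ^ 2 * dv X Y z) :=
    HI.of (ibdd hHφ.mu.integrable_sq c1 hb3)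
  have i5 : HI (fun z => Ω.indicator (dv X Y) z) (∫ z in Ω, dv X Y z) :=
    ⟨(c1.integrable_of_hasCompactSupport s1).indicator hΩ.measurableSet,
      integral_indicator hΩ.measurableSet⟩
  have i6 := (((i2.sub i4).mul (α * T)).add ((i3.mul 2).sub i1)).sub (i5.mul ((2 - α) * T / V))
  rw [← hℓ, ← hτ1, key] at i6
  refine (i6.congr (fun z => ?_) rfl).e
  simp only [e1_eq, ← hTT, ← hVV]
  by_cases hz : z ∈ Ω
  · rw [indicator_of_mem hz, indicator_of_mem hz]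
    unfold k1 k2 dv
    ring
  · rw [indicator_of_notMem hz, indicator_of_notMem hz]
    unfold k1 k2 dv
    ring

end Pool.Agent.Lib.MP_f46d6a.H23
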