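import Pool.Agent.Lib.MP_f46d6a.Defs

/-!
# Inner variations: the deformation `z ↦ z + t (X z, Y z)` and the change of variables
-/

set_option autoImplicit false

open MeasureTheory Set Filter Topology
open scoped ContDiff NNReal

namespace Pool.Agent.Lib.MP_f46d6a.H23

open Pool.Agent.Lib.MP_dac83a

/-- the deformation -/
def Ph (X Y : P → ℝ) (t : ℝ) (z : P) : P := (z.1 + t * X z, z.2 + t * Y z)

/-- divergence -/
noncomputable def dv (X Y : P → ℝ) (z : P) : ℝ := dd ex X z + dd ey Y z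

/-- determinant of the gradient -/
noncomputable def mm (X Y : P → ℝ) (z : P) : ℝ := dd ex X z * dd ey Y z - dd ey X z * dd ex Y z

/-- Jacobian determinant -/
noncomputable def Dt (X Y : P → ℝ) (t : ℝ) (z : P) : ℝ := 1 + t * dv X Y z + t ^ 2 * mm X Y z

/-- derivative of the deformation -/
noncomputable def Ph' (X Y : P → ℝ) (t : ℝ) (z : P) : P →L[ℝ] P :=
  (ContinuousLinearMap.fst ℝ ℝ ℝ + t • fderiv ℝ X z).prod
    (ContinuousLinearMap.snd ℝ ℝ ℝ + t • fderiv ℝ Y z)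

theorem det_eq (f : P →L[ℝ] P) : f.det = (f ex).1 * (f ey).2 - (f ey).1 * (f ex).2 := by
  rw [ContinuousLinearMap.det, ← LinearMap.det_toMatrix (Module.Basis.finTwoProd ℝ), Matrix.det_fin_two]
  simp [LinearMap.toMatrix_apply]

theorem Ph'_det (X Y : P → ℝ) (t : ℝ) (z : P) : (Ph' X Y t z).det = Dt X Y t z := by
  rw [det_eq]
  simp only [Ph', ContinuousLinearMap.prod_apply, add_apply,
    ContinuousLinearMap.coe_fst', ContinuousLinearMap.coe_snd', smul_apply,
    smul_eq_mul, Dt, dv, mm, dd]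
  ring

section

variable {X Y : P → ℝ} (hX : IsTest univ X) (hY : IsTest univ Y)

include hX hY

theorem hasFDerivAt_Ph (t : ℝ) (z : P) : HasFDerivAt (Ph X Y t) (Ph' X Y t z) z := by
  have h1 : HasFDerivAt (fun z : P => z.1 + t * X z)
      (ContinuousLinearMap.fst ℝ ℝ ℝ + t • fderiv ℝ X z) z :=
    hasFDerivAt_fst.add (((hX.smooth.differentiable (by simp)) z).hasFDerivAt.const_mul t)
  have h2 : HasFDerivAt (fun z : P => z.2 + t * Y z)
      (ContinuousLinearMap.snd ℝ ℝ ℝ + t • fderiv ℝ Y z) z :=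
    hasFDerivAt_snd.add (((hY.smooth.differentiable (by simp)) z).hasFDerivAt.const_mul t)
  exact h1.prodMk h2

theorem contDiff_Ph (t : ℝ) : ContDiff ℝ ∞ (Ph X Y t) := by
  have h1 := hX.smooth
  have h2 := hY.smooth
  unfold Ph
  exact (contDiff_fst.add (contDiff_const.mul h1)).prodMk (contDiff_snd.add (contDiff_const.mul h2))

/-- bound on the first derivatives -/
theorem exists_bound : ∃ M : ℝ, 1 ≤ M ∧ (∀ z, |dd ex X z| ≤ M) ∧ (∀ z, |dd ey X z| ≤ M) ∧
    (∀ z, |dd ex Y z| ≤ M) ∧ (∀ z, |dd ey Y z| ≤ M) := by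
  have key : ∀ f : P → ℝ, IsTest univ f → ∀ v : P, ∃ C, ∀ z, |dd v f z| ≤ C := by
    intro f hf v
    obtain ⟨C, hC⟩ := (hf.dd v).smooth.continuous.bounded_above_of_compact_support (hf.dd v).cpt
    exact ⟨C, hC⟩
  obtain ⟨c1, h1⟩ := key X hX ex
  obtain ⟨c2, h2⟩ := key X hX ey
  obtain ⟨c3, h3⟩ := key Y hY ex
  obtain ⟨c4, h4⟩ := key Y hY ey
  refine ⟨max 1 (max (max c1 c2) (max c3 c4)), le_max_left _ _, fun z => (h1 z).trans ?_,
    fun z => (h2 z).trans ?_, fun z => (h3 z).trans ?_, fun z => (h4 z).trans ?_⟩ <;> simp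

theorem exists_homeo : ∃ t0 : ℝ, 0 < t0 ∧ ∀ t : ℝ, |t| ≤ t0 →
    (∀ z, 1 / 2 ≤ Dt X Y t z) ∧ ∃ e : P ≃ₜ P, (∀ z, e z = Ph X Y t z) ∧ ContDiff ℝ ∞ e.symm := by
  obtain ⟨CX, hCX⟩ := hX.smooth.lipschitzWith_of_hasCompactSupport hX.cpt (by simp)
  obtain ⟨CY, hCY⟩ := hY.smooth.lipschitzWith_of_hasCompactSupport hY.cpt (by simp)
  obtain ⟨M, hM1, b1, b2, b3, b4⟩ := exists_bound hX hY
  set K : ℝ := max CX CY + 1 with hK
  have hKp : 0 < K := by positivity
  refine ⟨min (1 / (2 * K)) (1 / (8 * M)), by positivity, fun t ht => ?_⟩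
  have ht1 : |t| ≤ 1 / (2 * K) := ht.trans (min_le_left _ _)
  have ht2 : |t| ≤ 1 / (8 * M) := ht.trans (min_le_right _ _)
  have hD : ∀ z, 1 / 2 ≤ Dt X Y t z := by
    intro z
    have htM : |t| * M ≤ 1 / 8 := by
      have := mul_le_mul_of_nonneg_right ht2 (by linarith : (0:ℝ) ≤ M)
      calc |t| * M ≤ 1 / (8 * M) * M := this
        _ = 1 / 8 := by field_simp
    have e1 : |t * dd ex X z| ≤ 1 / 8 := by
      rw [abs_mul]; exact (mul_le_mul_of_nonneg_left (b1 z) (abs_nonneg t)).trans htM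
    have e2 : |t * dd ey X z| ≤ 1 / 8 := by
      rw [abs_mul]; exact (mul_le_mul_of_nonneg_left (b2 z) (abs_nonneg t)).trans htM
    have e3 : |t * dd ex Y z| ≤ 1 / 8 := by
      rw [abs_mul]; exact (mul_le_mul_of_nonneg_left (b3 z) (abs_nonneg t)).trans htM
    have e4 : |t * dd ey Y z| ≤ 1 / 8 := by
      rw [abs_mul]; exact (mul_le_mul_of_nonneg_left (b4 z) (abs_nonneg t)).trans htM
    have e5 : |(t * dd ex X z) * (t * dd ey Y z)| ≤ 1 / 8 * (1 / 8) := by
      rw [abs_mul]; exact mul_le_mul e1 e4 (abs_nonneg _) (by norm_num)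
    have e6 : |(t * dd ey X z) * (t * dd ex Y z)| ≤ 1 / 8 * (1 / 8) := by
      rw [abs_mul]; exact mul_le_mul e2 e3 (abs_nonneg _) (by norm_num)
    have e : Dt X Y t z = 1 + t * dd ex X z + t * dd ey Y z
        + (t * dd ex X z) * (t * dd ey Y z) - (t * dd ey X z) * (t * dd ex Y z) := by
      simp only [Dt, dv, mm]; ring
    rw [e]
    rw [abs_le] at e1 e4 e5 e6
    linarith [e1.1, e4.1, e5.1, e6.2]
  refine ⟨hD, ?_⟩
  -- the global homeomorphism
  set c : ℝ≥0 := ⟨|t| * (max CX CY : ℝ≥0), by positivity⟩ with hc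
  have hcK : (c : ℝ) < 1 := by
    have : (c : ℝ) = |t| * (max CX CY : ℝ≥0) := rfl
    rw [this]
    have h1 : |t| * ((max CX CY : ℝ≥0) : ℝ) ≤ 1 / (2 * K) * K := by
      apply mul_le_mul ht1 _ (by positivity) (by positivity)
      rw [hK]; push_cast; linarith
    have h2 : 1 / (2 * K) * K = 1 / 2 := by field_simp
    linarith
  have happ : ApproximatesLinearOn (Ph X Y t)
      ((ContinuousLinearEquiv.refl ℝ P : P ≃L[ℝ] P) : P →L[ℝ] P) univ c := by
    intro x _ y _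
    have e : Ph X Y t x - Ph X Y t y - ((ContinuousLinearEquiv.refl ℝ P : P ≃L[ℝ] P) : P →L[ℝ] P) (x - y)
        = (t * (X x - X y), t * (Y x - Y y)) := by
      ext <;> simp [Ph] <;> ring
    rw [e, Prod.norm_def]
    have h1 := hCX.dist_le_mul x y
    have h2 := hCY.dist_le_mul x y
    rw [Real.dist_eq, dist_eq_norm] at h1 h2
    have hcc : (c : ℝ) = |t| * (max CX CY : ℝ≥0) := rfl
    rw [hcc]
    push_cast
    simp only [Real.norm_eq_abs, abs_mul]
    apply max_le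
    · calc |t| * |X x - X y| ≤ |t| * (CX * ‖x - y‖) := by gcongr
        _ ≤ |t| * (max (CX : ℝ) CY * ‖x - y‖) := by gcongr; exact le_max_left _ _
        _ = _ := by ring
    · calc |t| * |Y x - Y y| ≤ |t| * (CY * ‖x - y‖) := by gcongr
        _ ≤ |t| * (max (CX : ℝ) CY * ‖x - y‖) := by gcongr; exact le_max_right _ _
        _ = _ := by ring
  have hN : ‖(((ContinuousLinearEquiv.refl ℝ P : P ≃L[ℝ] P).symm : P ≃L[ℝ] P) : P →L[ℝ] P)‖₊ = 1 := by
    have : (((ContinuousLinearEquiv.refl ℝ P : P ≃L[ℝ] P).symm : P ≃L[ℝ] P) : P →L[ℝ] P)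
        = ContinuousLinearMap.id ℝ P := rfl
    rw [this]
    exact ContinuousLinearMap.nnnorm_id
  have hcN : Subsingleton P ∨ c < (‖(((ContinuousLinearEquiv.refl ℝ P : P ≃L[ℝ] P).symm : P ≃L[ℝ] P) : P →L[ℝ] P)‖₊)⁻¹ := by
    right
    rw [hN, inv_one]
    exact_mod_cast hcK
  refine ⟨happ.toHomeomorph _ hcN, fun z => rfl, ?_⟩
  have hdet : ∀ z, (Ph' X Y t z).det ≠ 0 := fun z => by
    rw [Ph'_det]; have := hD z; linarith
  refine Homeomorph.contDiff_symm _
    (f₀' := fun z => (Ph' X Y t z).toContinuousLinearEquivOfDetNeZero (hdet z)) ?_ ?_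
  · intro z
    rw [ContinuousLinearMap.coe_toContinuousLinearEquivOfDetNeZero]
    exact hasFDerivAt_Ph hX hY t z
  · exact contDiff_Ph hX hY t

end

end Pool.Agent.Lib.MP_f46d6a.H23
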