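import Pool.Agent.Lib.MP_f46d6a_h23.Inner1

/-!
# Inner variations: change of variables in the energy, the `L²` norm and the area
-/

set_option autoImplicit false

open MeasureTheory Set Filter Topology
open scoped ContDiff NNReal

namespace Pool.Agent.Lib.MP_f46d6a.H23

open Pool.Agent.Lib.MP_dac83a

/-- data of an admissible deformation -/
structure Dfm (X Y : P → ℝ) (t M : ℝ) where
  e : P ≃ₜ P
  he : ∀ z, e z = Ph X Y t z
  hs : ContDiff ℝ ∞ e.symm
  hD : ∀ z, 1 / 2 ≤ Dt X Y t z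
  hM : 1 ≤ M
  ht : |t| * M ≤ 1 / 8
  b1 : ∀ z, |dd ex X z| ≤ M
  b2 : ∀ z, |dd ey X z| ≤ M
  b3 : ∀ z, |dd ex Y z| ≤ M
  b4 : ∀ z, |dd ey Y z| ≤ M

theorem exists_dfm {X Y : P → ℝ} (hX : IsTest univ X) (hY : IsTest univ Y) :
    ∃ M t0 : ℝ, 0 < t0 ∧ ∀ t : ℝ, |t| ≤ t0 → Nonempty (Dfm X Y t M) := by
  obtain ⟨M, hM1, b1, b2, b3, b4⟩ := exists_bound hX hY
  obtain ⟨t0, ht0, h⟩ := exists_homeo hX hY
  refine ⟨M, min t0 (1 / (8 * M)), by positivity, fun t ht => ?_⟩
  obtain ⟨hD, e, he, hs⟩ := h t (ht.trans (min_le_left _ _))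
  refine ⟨⟨e, he, hs, hD, hM1, ?_, b1, b2, b3, b4⟩⟩
  have ht2 := ht.trans (min_le_right _ _)
  calc |t| * M ≤ 1 / (8 * M) * M := by gcongr
    _ = 1 / 8 := by field_simp

/-- the energy density in the new variables -/
noncomputable def Gq (p q r s t a b : ℝ) : ℝ := ((1 + t * s) * a - t * r * b) ^ 2 + ((1 + t * p) * b - t * q * a) ^ 2

/-- first variation of the energy density -/
noncomputable def e1q (p q r s a b : ℝ) : ℝ := (b ^ 2 - a ^ 2) * (p - s) - 2 * a * b * (q + r)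

theorem abs_mul_le_of {x y K : ℝ} (hx : |x| ≤ K) : |x * y| ≤ K * |y| := by
  rw [abs_mul]; gcongr

theorem Gq_bound {p q r s t a b M : ℝ} (hM : 1 ≤ M) (ht : |t| * M ≤ 1 / 8) (hp : |p| ≤ M) (hq : |q| ≤ M)
    (hr : |r| ≤ M) (hs : |s| ≤ M) {D : ℝ} (hD : D = 1 + t * (p + s) + t ^ 2 * (p * s - q * r))
    (hD2 : 1 / 2 ≤ D) :
    |Gq p q r s t a b / D - (a ^ 2 + b ^ 2) - t * e1q p q r s a b| ≤ 30 * M ^ 2 * t ^ 2 * (a ^ 2 + b ^ 2) := by
  have hDp : 0 < D := by linarith
  set R2 := s ^ 2 * a ^ 2 - 2 * (r * s) * (a * b) + r ^ 2 * b ^ 2 + p ^ 2 * b ^ 2 - 2 * (p * q) * (a * b)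
    + q ^ 2 * a ^ 2 - (p * s - q * r) * (a ^ 2 + b ^ 2) with hR2
  set e := e1q p q r s a b with he
  set m := p * s - q * r with hm
  have key : Gq p q r s t a b / D - (a ^ 2 + b ^ 2) - t * e = t ^ 2 * (R2 - e * (p + s) - t * e * m) / D := by
    field_simp
    rw [hR2, he, hD, hm]
    unfold Gq e1q
    ring
  have n0 : 0 ≤ a ^ 2 + b ^ 2 := by positivity
  have hab : |a * b| ≤ (a ^ 2 + b ^ 2) / 2 := by
    rw [abs_le]; constructor <;> nlinarith [sq_nonneg (a + b), sq_nonneg (a - b)]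
  have mul_b : ∀ {x y : ℝ}, |x| ≤ M → |y| ≤ M → |x * y| ≤ M ^ 2 := by
    intro x y hx hy
    rw [abs_mul, sq]
    exact mul_le_mul hx hy (abs_nonneg _) (by linarith)
  have hmb : |m| ≤ 2 * M ^ 2 := by
    rw [hm]
    calc |p * s - q * r| ≤ |p * s| + |q * r| := abs_sub _ _
      _ ≤ M ^ 2 + M ^ 2 := add_le_add (mul_b hp hs) (mul_b hq hr)
      _ = _ := by ring
  have heb : |e| ≤ 4 * M * (a ^ 2 + b ^ 2) := by
    rw [he]
    unfold e1q
    have h1 : |(b ^ 2 - a ^ 2) * (p - s)| ≤ (a ^ 2 + b ^ 2) * (2 * M) := by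
      rw [abs_mul]
      apply mul_le_mul
      · rw [abs_le]; constructor <;> nlinarith [sq_nonneg a, sq_nonneg b]
      · calc |p - s| ≤ |p| + |s| := abs_sub _ _
          _ ≤ 2 * M := by linarith
      · exact abs_nonneg _
      · exact n0
    have h2 : |2 * a * b * (q + r)| ≤ (a ^ 2 + b ^ 2) * (2 * M) := by
      rw [show 2 * a * b * (q + r) = (2 * (a * b)) * (q + r) by ring, abs_mul]
      apply mul_le_mul
      · rw [abs_mul, abs_two]; linarith
      · calc |q + r| ≤ |q| + |r| := abs_add_le _ _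
          _ ≤ 2 * M := by linarith
      · exact abs_nonneg _
      · exact n0
    calc _ ≤ |(b ^ 2 - a ^ 2) * (p - s)| + |2 * a * b * (q + r)| := abs_sub _ _
      _ ≤ _ := by linarith
  have hRb : |R2| ≤ 6 * M ^ 2 * (a ^ 2 + b ^ 2) := by
    have sqb : ∀ {x : ℝ}, |x| ≤ M → x ^ 2 ≤ M ^ 2 := by
      intro x hx; rw [← sq_abs]; gcongr
    have g1 : s ^ 2 * a ^ 2 ≤ M ^ 2 * a ^ 2 := by gcongr ?_ * _; exact sqb hs
    have g2 : r ^ 2 * b ^ 2 ≤ M ^ 2 * b ^ 2 := by gcongr ?_ * _; exact sqb hr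
    have g3 : p ^ 2 * b ^ 2 ≤ M ^ 2 * b ^ 2 := by gcongr ?_ * _; exact sqb hp
    have g4 : q ^ 2 * a ^ 2 ≤ M ^ 2 * a ^ 2 := by gcongr ?_ * _; exact sqb hq
    have g1' : 0 ≤ s ^ 2 * a ^ 2 := by positivity
    have g2' : 0 ≤ r ^ 2 * b ^ 2 := by positivity
    have g3' : 0 ≤ p ^ 2 * b ^ 2 := by positivity
    have g4' : 0 ≤ q ^ 2 * a ^ 2 := by positivity
    have g5 : |2 * (r * s) * (a * b)| ≤ M ^ 2 * (a ^ 2 + b ^ 2) := by
      rw [show 2 * (r * s) * (a * b) = (r * s) * (2 * (a * b)) by ring, abs_mul]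
      apply mul_le_mul (mul_b hr hs) _ (abs_nonneg _) (by positivity)
      rw [abs_mul, abs_two]; linarith
    have g6 : |2 * (p * q) * (a * b)| ≤ M ^ 2 * (a ^ 2 + b ^ 2) := by
      rw [show 2 * (p * q) * (a * b) = (p * q) * (2 * (a * b)) by ring, abs_mul]
      apply mul_le_mul (mul_b hp hq) _ (abs_nonneg _) (by positivity)
      rw [abs_mul, abs_two]; linarith
    have g7 : |m * (a ^ 2 + b ^ 2)| ≤ 2 * M ^ 2 * (a ^ 2 + b ^ 2) := by
      rw [abs_mul, abs_of_nonneg n0]; gcongr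
    rw [abs_le] at g5 g6 g7 ⊢
    constructor <;> (rw [hR2]; linarith [g5.1, g5.2, g6.1, g6.2, g7.1, g7.2])
  have hps : |e * (p + s)| ≤ 8 * M ^ 2 * (a ^ 2 + b ^ 2) := by
    rw [abs_mul]
    have : |p + s| ≤ 2 * M := by
      calc |p + s| ≤ |p| + |s| := abs_add_le _ _
        _ ≤ 2 * M := by linarith
    calc |e| * |p + s| ≤ (4 * M * (a ^ 2 + b ^ 2)) * (2 * M) := by gcongr
      _ = _ := by ring
  have htem : |t * e * m| ≤ M ^ 2 * (a ^ 2 + b ^ 2) := by
    rw [abs_mul, abs_mul]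
    calc |t| * |e| * |m| ≤ |t| * (4 * M * (a ^ 2 + b ^ 2)) * (2 * M ^ 2) := by gcongr
      _ = (|t| * M) * (8 * M ^ 2 * (a ^ 2 + b ^ 2)) := by ring
      _ ≤ (1 / 8) * (8 * M ^ 2 * (a ^ 2 + b ^ 2)) := by gcongr
      _ = _ := by ring
  rw [key, abs_div, abs_mul, abs_of_pos hDp, div_le_iff₀ hDp, abs_of_nonneg (sq_nonneg t)]
  have h3 : |R2 - e * (p + s) - t * e * m| ≤ 15 * M ^ 2 * (a ^ 2 + b ^ 2) := by
    rw [abs_le] at hRb hps htem ⊢
    constructor <;> linarith [hRb.1, hRb.2, hps.1, hps.2, htem.1, htem.2]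
  calc t ^ 2 * |R2 - e * (p + s) - t * e * m| ≤ t ^ 2 * (15 * M ^ 2 * (a ^ 2 + b ^ 2)) := by gcongr
    _ = 30 * M ^ 2 * t ^ 2 * (a ^ 2 + b ^ 2) * (1 / 2) := by ring
    _ ≤ 30 * M ^ 2 * t ^ 2 * (a ^ 2 + b ^ 2) * D := by gcongr

section

variable {X Y : P → ℝ} (hX : IsTest univ X) (hY : IsTest univ Y) {t M : ℝ}

include hX hY

/-- change of variables -/
theorem cov (d : Dfm X Y t M) (g : P → ℝ) : ∫ z, g z = ∫ z, g (Ph X Y t z) * Dt X Y t z := by
  have h := integral_image_eq_integral_abs_det_fderiv_smul (volume : Measure P) (s := univ)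
    (f := Ph X Y t) (f' := Ph' X Y t) MeasurableSet.univ
    (fun x _ => (hasFDerivAt_Ph hX hY t x).hasFDerivWithinAt)
    (by
      intro x _ y _ hxy
      rw [← d.he, ← d.he] at hxy
      exact d.e.injective hxy) g
  have hi : Ph X Y t '' univ = univ := by
    have : Ph X Y t = d.e := by ext1 z; exact (d.he z).symm
    rw [this, image_univ]
    exact d.e.surjective.range_eq
  rw [hi] at h
  simp only [Measure.restrict_univ] at h
  rw [h]
  congr 1
  ext z
  rw [Ph'_det, abs_of_pos (by have := d.hD z; linarith), smul_eq_mul, mul_comm]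

theorem int_div_mm : (Continuous (dv X Y) ∧ HasCompactSupport (dv X Y)) ∧
    (Continuous (mm X Y) ∧ HasCompactSupport (mm X Y)) := by
  have c : ∀ f : P → ℝ, IsTest univ f → ∀ v : P, Continuous (dd v f) := fun f hf v =>
    (hf.dd v).smooth.continuous
  have s : ∀ f : P → ℝ, IsTest univ f → ∀ v : P, HasCompactSupport (dd v f) := fun f hf v =>
    (hf.dd v).cpt
  refine ⟨⟨(c X hX ex).add (c Y hY ey), (s X hX ex).add (s Y hY ey)⟩,
    ⟨((c X hX ex).mul (c Y hY ey)).sub ((c X hX ey).mul (c Y hY ex)), ?_⟩⟩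
  have h1 : HasCompactSupport (fun z => dd ex X z * dd ey Y z) := (s X hX ex).mul_right
  have h2 : HasCompactSupport (fun z => dd ey X z * dd ex Y z) := (s X hX ey).mul_right
  exact h1.sub h2

/-- area of the deformed set -/
theorem vol_image (d : Dfm X Y t M) {Ω : Set P} (hΩ : IsOpen Ω) (hf : volume Ω ≠ ⊤) :
    volume (Ph X Y t '' Ω) ≠ ⊤ ∧
    vol (Ph X Y t '' Ω) = vol Ω + t * (∫ z in Ω, dv X Y z) + t ^ 2 * ∫ z in Ω, mm X Y z := by
  obtain ⟨⟨c1, s1⟩, ⟨c2, s2⟩⟩ := int_div_mm hX hY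
  have h := lintegral_abs_det_fderiv_eq_addHaar_image (volume : Measure P) (s := Ω)
    (f := Ph X Y t) (f' := Ph' X Y t) hΩ.measurableSet
    (fun x _ => (hasFDerivAt_Ph hX hY t x).hasFDerivWithinAt)
    (by
      intro x _ y _ hxy
      rw [← d.he, ← d.he] at hxy
      exact d.e.injective hxy)
  have hint : IntegrableOn (fun z => Dt X Y t z) Ω := by
    unfold Dt
    refine ((integrableOn_const hf).add ?_).add ?_
    · exact (((c1.integrable_of_hasCompactSupport s1).const_mul t).integrableOn)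
    · exact (((c2.integrable_of_hasCompactSupport s2).const_mul (t ^ 2)).integrableOn)
  have hpos : ∀ z, 0 ≤ Dt X Y t z := fun z => by have := d.hD z; linarith
  have e : ∫⁻ x in Ω, ENNReal.ofReal |(Ph' X Y t x).det| = ENNReal.ofReal (∫ z in Ω, Dt X Y t z) := by
    rw [ofReal_integral_eq_lintegral_ofReal hint (by filter_upwards with z using hpos z)]
    congr 1
    ext z
    rw [Ph'_det, abs_of_nonneg (hpos z)]
  rw [e] at h
  refine ⟨by rw [← h]; exact ENNReal.ofReal_ne_top, ?_⟩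
  unfold vol
  rw [← h, ENNReal.toReal_ofReal (integral_nonneg hpos)]
  unfold Dt
  rw [integral_add (f := fun z => 1 + t * dv X Y z), integral_add, integral_const_mul, integral_const_mul]
  · simp [Measure.real]
  · exact integrableOn_const hf
  · exact (((c1.integrable_of_hasCompactSupport s1).const_mul t).integrableOn)
  · exact (integrableOn_const hf).add (((c1.integrable_of_hasCompactSupport s1).const_mul t).integrableOn)
  · exact (((c2.integrable_of_hasCompactSupport s2).const_mul (t ^ 2)).integrableOn)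

omit hX hY in
theorem isOpen_image (d : Dfm X Y t M) {Ω : Set P} (hΩ : IsOpen Ω) : IsOpen (Ph X Y t '' Ω) := by
  have : Ph X Y t = d.e := by ext1 z; exact (d.he z).symm
  rw [this]
  exact d.e.isOpenMap _ hΩ

/-- pull back of test functions -/
theorem test_pull (d : Dfm X Y t M) {Ω : Set P} {η : P → ℝ} (h : IsTest (Ph X Y t '' Ω) η) :
    IsTest Ω (fun z => η (Ph X Y t z)) := by
  have e0 : Ph X Y t = d.e := by ext1 z; exact (d.he z).symm
  have ets : tsupport (fun z => η (Ph X Y t z)) = d.e ⁻¹' (tsupport η) := by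
    rw [show (fun z => η (Ph X Y t z)) = η ∘ d.e by rw [← e0]; rfl]
    exact tsupport_comp_eq_preimage η d.e
  refine ⟨h.smooth.comp (contDiff_Ph hX hY t), ?_, ?_⟩
  · unfold HasCompactSupport
    rw [ets, ← d.e.image_symm]
    exact h.cpt.isCompact.image d.e.symm.continuous
  · rw [ets]
    intro z hz
    obtain ⟨y, hy, hyz⟩ := h.sub hz
    rw [e0] at hyz
    have := d.e.injective hyz
    rwa [← this]

omit hX hY in
/-- push forward of test functions -/
theorem test_push (d : Dfm X Y t M) {Ω : Set P} {u : P → ℝ} (h : IsTest Ω u) :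
    IsTest (Ph X Y t '' Ω) (fun z => u (d.e.symm z)) := by
  have e0 : Ph X Y t = d.e := by ext1 z; exact (d.he z).symm
  have ets : tsupport (fun z => u (d.e.symm z)) = d.e.symm ⁻¹' (tsupport u) :=
    tsupport_comp_eq_preimage u d.e.symm
  refine ⟨h.smooth.comp d.hs, ?_, ?_⟩
  · unfold HasCompactSupport
    rw [ets]
    have := d.e.symm.image_symm
    rw [← d.e.symm.image_symm]
    exact h.cpt.isCompact.image d.e.symm.symm.continuous
  · rw [ets]
    intro z hz
    rw [e0]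
    exact ⟨d.e.symm z, h.sub hz, by simp⟩

/-- chain rule -/
theorem dd_pull (η : P → ℝ) (hη : ContDiff ℝ ∞ η) (z : P) :
    dd ex (fun z => η (Ph X Y t z)) z = dd ex η (Ph X Y t z) * (1 + t * dd ex X z) + dd ey η (Ph X Y t z) * (t * dd ex Y z) ∧
    dd ey (fun z => η (Ph X Y t z)) z = dd ex η (Ph X Y t z) * (t * dd ey X z) + dd ey η (Ph X Y t z) * (1 + t * dd ey Y z) := by
  have hd : HasFDerivAt η (fderiv ℝ η (Ph X Y t z)) (Ph X Y t z) :=
    ((hη.differentiable (by simp)) _).hasFDerivAt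
  have h := hd.comp z (hasFDerivAt_Ph hX hY t z)
  have lin : ∀ v : P, fderiv ℝ η (Ph X Y t z) v = v.1 * dd ex η (Ph X Y t z) + v.2 * dd ey η (Ph X Y t z) := by
    intro v
    have : v = v.1 • ex + v.2 • ey := by ext <;> simp
    conv_lhs => rw [this]
    rw [map_add, map_smul, map_smul]
    rfl
  constructor
  · rw [show dd ex (fun z => η (Ph X Y t z)) z = fderiv ℝ (η ∘ Ph X Y t) z ex from rfl, h.fderiv]
    simp only [ContinuousLinearMap.comp_apply]
    rw [lin]
    simp only [Ph', ContinuousLinearMap.prod_apply, add_apply,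
      ContinuousLinearMap.coe_fst', ContinuousLinearMap.coe_snd', smul_apply, smul_eq_mul, dd]
    ring
  · rw [show dd ey (fun z => η (Ph X Y t z)) z = fderiv ℝ (η ∘ Ph X Y t) z ey from rfl, h.fderiv]
    simp only [ContinuousLinearMap.comp_apply]
    rw [lin]
    simp only [Ph', ContinuousLinearMap.prod_apply, add_apply,
      ContinuousLinearMap.coe_fst', ContinuousLinearMap.coe_snd', smul_apply, smul_eq_mul, dd]
    ring

/-- the first variation density of a function -/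
noncomputable def e1 (X Y : P → ℝ) (a b : P → ℝ) (z : P) : ℝ :=
  e1q (dd ex X z) (dd ey X z) (dd ex Y z) (dd ey Y z) (a z) (b z)

theorem En_pull (d : Dfm X Y t M) (η : P → ℝ) (hη : ContDiff ℝ ∞ η) :
    En η = ∫ z, Gq (dd ex X z) (dd ey X z) (dd ex Y z) (dd ey Y z) t
      (dd ex (fun z => η (Ph X Y t z)) z) (dd ey (fun z => η (Ph X Y t z)) z) / Dt X Y t z := by
  unfold En
  rw [cov hX hY d]
  congr 1
  ext z
  obtain ⟨h1, h2⟩ := dd_pull hX hY (t := t) η hη z
  rw [h1, h2]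
  have hD : Dt X Y t z ≠ 0 := by have := d.hD z; linarith
  field_simp
  unfold Gq Dt dv mm
  ring

end

end Pool.Agent.Lib.MP_f46d6a.H23
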