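import Pool.Agent.Lib.MP_f46d6a_h23.Inner2

/-!
# Inner variations: lower bounds for the first eigenvalue and the torsional rigidity
-/

set_option autoImplicit false

open MeasureTheory Set Filter Topology
open scoped ContDiff NNReal

namespace Pool.Agent.Lib.MP_f46d6a.H23

open Pool.Agent.Lib.MP_dac83a

noncomputable def k1 (X Y : P → ℝ) (z : P) : ℝ := dd ex X z - dd ey Y z
noncomputable def k2 (X Y : P → ℝ) (z : P) : ℝ := dd ey X z + dd ex Y z

theorem e1_eq (X Y a b : P → ℝ) (z : P) :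
    e1 X Y a b z = (b z ^ 2 - a z ^ 2) * k1 X Y z - 2 * a z * b z * k2 X Y z := rfl

theorem quad_low {k1 k2 k3 K δ t s x1 x2 x3 y1 y2 y3 : ℝ} (hδ : 0 < δ) (h1 : |k1| ≤ K) (h2 : |k2| ≤ K)
    (h3 : |k3| ≤ K) (ht : |t| * K ≤ δ) :
    t * s ^ 2 * ((x2 ^ 2 - x1 ^ 2) * k1 - 2 * x1 * x2 * k2 - x3 ^ 2 * k3)
      - 2 * (K ^ 2 / δ) * t ^ 2 * s ^ 2 * (x1 ^ 2 + x2 ^ 2 + x3 ^ 2) - 4 * δ * (y1 ^ 2 + y2 ^ 2 + y3 ^ 2)
    ≤ t * (((s * x2 + y2) ^ 2 - (s * x1 + y1) ^ 2) * k1 - 2 * (s * x1 + y1) * (s * x2 + y2) * k2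
      - (s * x3 + y3) ^ 2 * k3) := by
  have hK : 0 ≤ K := (abs_nonneg _).trans h1
  have cross : ∀ {k x y : ℝ}, |k| ≤ K → |2 * s * t * k * x * y| ≤ K ^ 2 / δ * t ^ 2 * s ^ 2 * x ^ 2 + δ * y ^ 2 := by
    intro k x y hk
    have e : |2 * s * t * k * x * y| = 2 * (|k| * |s * t * x|) * |y| := by
      rw [show 2 * s * t * k * x * y = 2 * (k * (s * t * x)) * y by ring, abs_mul, abs_mul, abs_mul, abs_two]
    rw [e]
    have h4 : |k| * |s * t * x| ≤ K * |s * t * x| := by gcongr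
    have h5 : 2 * (K * |s * t * x|) * |y| ≤ (K * |s * t * x|) ^ 2 / δ + δ * |y| ^ 2 := by
      rw [div_add' _ _ _ hδ.ne', le_div_iff₀ hδ]
      nlinarith [sq_nonneg (K * |s * t * x| - δ * |y|)]
    have h6 : (K * |s * t * x|) ^ 2 / δ + δ * |y| ^ 2 = K ^ 2 / δ * t ^ 2 * s ^ 2 * x ^ 2 + δ * y ^ 2 := by
      rw [mul_pow, sq_abs, sq_abs]; field_simp
    calc 2 * (|k| * |s * t * x|) * |y| ≤ 2 * (K * |s * t * x|) * |y| := by gcongr
      _ ≤ _ := by rw [← h6]; exact h5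
  have c1 := cross (x := x2) (y := y2) h1
  have c2 := cross (x := x1) (y := y1) h1
  have c3 := cross (x := x1) (y := y2) h2
  have c4 := cross (x := x2) (y := y1) h2
  have c5 := cross (x := x3) (y := y3) h3
  have small : ∀ {k : ℝ}, |k| ≤ K → |t * k| ≤ δ := by
    intro k hk
    rw [abs_mul]
    exact (mul_le_mul_of_nonneg_left hk (abs_nonneg t)).trans ht
  have s1 := small h1
  have s2 := small h2
  have s3 := small h3
  have yb1 : |(t * k1) * (y2 ^ 2 - y1 ^ 2)| ≤ δ * (y1 ^ 2 + y2 ^ 2) := by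
    rw [abs_mul]
    apply mul_le_mul s1 _ (abs_nonneg _) hδ.le
    rw [abs_le]; constructor <;> nlinarith [sq_nonneg y1, sq_nonneg y2]
  have yb2 : |(t * k2) * (2 * y1 * y2)| ≤ δ * (y1 ^ 2 + y2 ^ 2) := by
    rw [abs_mul]
    apply mul_le_mul s2 _ (abs_nonneg _) hδ.le
    rw [abs_le]; constructor <;> nlinarith [sq_nonneg (y1 + y2), sq_nonneg (y1 - y2)]
  have yb3 : |(t * k3) * y3 ^ 2| ≤ δ * y3 ^ 2 := by
    rw [abs_mul, abs_of_nonneg (sq_nonneg y3)]
    gcongr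
  rw [abs_le] at c1 c2 c3 c4 c5 yb1 yb2 yb3
  have e : t * (((s * x2 + y2) ^ 2 - (s * x1 + y1) ^ 2) * k1 - 2 * (s * x1 + y1) * (s * x2 + y2) * k2
      - (s * x3 + y3) ^ 2 * k3)
    = t * s ^ 2 * ((x2 ^ 2 - x1 ^ 2) * k1 - 2 * x1 * x2 * k2 - x3 ^ 2 * k3)
      + 2 * s * t * k1 * x2 * y2 - 2 * s * t * k1 * x1 * y1 - 2 * s * t * k2 * x1 * y2
      - 2 * s * t * k2 * x2 * y1 - 2 * s * t * k3 * x3 * y3
      + (t * k1) * (y2 ^ 2 - y1 ^ 2) - (t * k2) * (2 * y1 * y2) - (t * k3) * y3 ^ 2 := by ring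
  obtain ⟨A, hA⟩ : ∃ A, A = K ^ 2 / δ * t ^ 2 * s ^ 2 := ⟨_, rfl⟩
  have hA0 : 0 ≤ A := by rw [hA]; positivity
  have e2 : 2 * (K ^ 2 / δ) * t ^ 2 * s ^ 2 * (x1 ^ 2 + x2 ^ 2 + x3 ^ 2)
      = 2 * (A * x1 ^ 2) + 2 * (A * x2 ^ 2) + 2 * (A * x3 ^ 2) := by rw [hA]; ring
  have e3 : 4 * δ * (y1 ^ 2 + y2 ^ 2 + y3 ^ 2) = 4 * (δ * y1 ^ 2) + 4 * (δ * y2 ^ 2) + 4 * (δ * y3 ^ 2) := by
    ring
  rw [← hA] at c1 c2 c3 c4 c5
  rw [mul_add δ] at yb1 yb2
  have p1 : 0 ≤ A * x3 ^ 2 := mul_nonneg hA0 (sq_nonneg _)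
  have p2 : 0 ≤ δ * y3 ^ 2 := mul_nonneg hδ.le (sq_nonneg _)
  rw [e, e2, e3]
  linarith [c1.1, c2.2, c3.2, c4.2, c5.2, yb1.1, yb2.2, yb3.2]

theorem ibdd {f k : P → ℝ} {C : ℝ} (hf : Integrable f) (hk : Continuous k) (hb : ∀ z, |k z| ≤ C) :
    Integrable (fun z => f z * k z) :=
  hf.mul_bdd (c := C) hk.aestronglyMeasurable (by filter_upwards with z; exact hb z)

section

variable {X Y : P → ℝ} (hX : IsTest univ X) (hY : IsTest univ Y)

include hX hY

theorem cont_k1 : Continuous (k1 X Y) :=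
  (hX.dd ex).smooth.continuous.sub (hY.dd ey).smooth.continuous

theorem cont_k2 : Continuous (k2 X Y) :=
  (hX.dd ey).smooth.continuous.add (hY.dd ex).smooth.continuous

theorem bounds : ∃ C : ℝ, (∀ z, |k1 X Y z| ≤ C) ∧ (∀ z, |k2 X Y z| ≤ C) ∧ (∀ z, |dv X Y z| ≤ C) ∧
    ∀ z, |mm X Y z| ≤ C := by
  obtain ⟨M, hM, b1, b2, b3, b4⟩ := exists_bound hX hY
  have hM0 : 0 ≤ M := by linarith
  refine ⟨2 * M ^ 2, fun z => ?_, fun z => ?_, fun z => ?_, fun z => ?_⟩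
  · calc |k1 X Y z| ≤ |dd ex X z| + |dd ey Y z| := abs_sub _ _
      _ ≤ M + M := add_le_add (b1 z) (b4 z)
      _ ≤ 2 * M ^ 2 := by nlinarith
  · calc |k2 X Y z| ≤ |dd ey X z| + |dd ex Y z| := abs_add_le _ _
      _ ≤ M + M := add_le_add (b2 z) (b3 z)
      _ ≤ 2 * M ^ 2 := by nlinarith
  · calc |dv X Y z| ≤ |dd ex X z| + |dd ey Y z| := abs_add_le _ _
      _ ≤ M + M := add_le_add (b1 z) (b4 z)
      _ ≤ 2 * M ^ 2 := by nlinarith
  · calc |mm X Y z| ≤ |dd ex X z * dd ey Y z| + |dd ey X z * dd ex Y z| := abs_sub _ _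
      _ ≤ M * M + M * M := by
        rw [abs_mul, abs_mul]
        exact add_le_add (mul_le_mul (b1 z) (b4 z) (abs_nonneg _) hM0)
          (mul_le_mul (b2 z) (b3 z) (abs_nonneg _) hM0)
      _ = 2 * M ^ 2 := by ring

theorem int_e1 {a b : P → ℝ} (ha : MemLp a 2 volume) (hb : MemLp b 2 volume) :
    Integrable (e1 X Y a b) ∧
    ∫ z, e1 X Y a b z = (∫ z, b z * (k1 X Y z * b z)) - (∫ z, a z * (k1 X Y z * a z))
      - 2 * ∫ z, a z * (k2 X Y z * b z) := by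
  obtain ⟨C, c1, c2, c3, c4⟩ := bounds hX hY
  have i1 : Integrable (fun z => b z * (k1 X Y z * b z)) := by
    refine (ibdd (hb.integrable_sq) (cont_k1 hX hY) c1).congr ?_
    filter_upwards with z; ring
  have i2 : Integrable (fun z => a z * (k1 X Y z * a z)) := by
    refine (ibdd (ha.integrable_sq) (cont_k1 hX hY) c1).congr ?_
    filter_upwards with z; ring
  have i3 : Integrable (fun z => a z * (k2 X Y z * b z)) := by
    refine (ibdd (integrable_mul2 ha hb) (cont_k2 hX hY) c2).congr ?_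
    filter_upwards with z; ring
  have e : e1 X Y a b = fun z => b z * (k1 X Y z * b z) - a z * (k1 X Y z * a z)
      - 2 * (a z * (k2 X Y z * b z)) := by
    ext z; rw [e1_eq]; ring
  rw [e]
  refine ⟨(i1.sub i2).sub (i3.const_mul 2), ?_⟩
  have h1 := integral_sub (f := fun z => b z * (k1 X Y z * b z) - a z * (k1 X Y z * a z))
    (i1.sub i2) (i3.const_mul 2)
  have h2 := integral_sub i1 i2
  rw [h1, h2, integral_const_mul]

theorem lim_e1 {an bn : ℕ → P → ℝ} {a b : P → ℝ} (ha : Conv2 volume an a) (hb : Conv2 volume bn b) :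
    Tendsto (fun n => ∫ z, e1 X Y (an n) (bn n) z) atTop (𝓝 (∫ z, e1 X Y a b z)) := by
  obtain ⟨C, c1, c2, c3, c4⟩ := bounds hX hY
  have m1 := (cont_k1 hX hY).aestronglyMeasurable (μ := (volume : Measure P))
  have m2 := (cont_k2 hX hY).aestronglyMeasurable (μ := (volume : Measure P))
  have q1 := ha.integral_mul (Conv2.mul_fix ha m1 (C := C) (by filter_upwards with z; exact c1 z))
  have q2 := hb.integral_mul (Conv2.mul_fix hb m1 (C := C) (by filter_upwards with z; exact c1 z))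
  have q3 := ha.integral_mul (Conv2.mul_fix hb m2 (C := C) (by filter_upwards with z; exact c2 z))
  rw [(int_e1 hX hY ha.mem hb.mem).2]
  refine ((q2.sub q1).sub (q3.const_mul 2)).congr fun n => ?_
  exact ((int_e1 hX hY (ha.memn n) (hb.memn n)).2).symm

variable {t M : ℝ}

/-- energy of a transported function -/
theorem En_two (d : Dfm X Y t M) {Ω : Set P} {η : P → ℝ} (hη : IsTest (Ph X Y t '' Ω) η) {u : P → ℝ}
    (hu : u = fun z => η (Ph X Y t z)) :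
    |En η - (∫ z, (dd ex u z ^ 2 + dd ey u z ^ 2)) - t * ∫ z, e1 X Y (dd ex u) (dd ey u) z|
      ≤ 30 * M ^ 2 * t ^ 2 * ∫ z, (dd ex u z ^ 2 + dd ey u z ^ 2) := by
  have ht : IsTest Ω u := by rw [hu]; exact test_pull hX hY d hη
  have hE := En_pull hX hY d η hη.smooth
  rw [← hu] at hE
  have ma := (ht.dd ex).memLp
  have mb := (ht.dd ey).memLp
  have i0 : Integrable (fun z => dd ex u z ^ 2 + dd ey u z ^ 2) := ma.integrable_sq.add mb.integrable_sq
  have i1 := (int_e1 hX hY ma mb).1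
  set f : P → ℝ := fun z => Gq (dd ex X z) (dd ey X z) (dd ex Y z) (dd ey Y z) t (dd ex u z) (dd ey u z)
    / Dt X Y t z - (dd ex u z ^ 2 + dd ey u z ^ 2) - t * e1 X Y (dd ex u) (dd ey u) z with hf
  have hb : ∀ z, |f z| ≤ 30 * M ^ 2 * t ^ 2 * (dd ex u z ^ 2 + dd ey u z ^ 2) := by
    intro z
    exact Gq_bound d.hM d.ht (d.b1 z) (d.b2 z) (d.b3 z) (d.b4 z) (by simp only [Dt, dv, mm]) (d.hD z)
  have cX := (hX.dd ex).smooth.continuous
  have cX' := (hX.dd ey).smooth.continuous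
  have cY := (hY.dd ex).smooth.continuous
  have cY' := (hY.dd ey).smooth.continuous
  have ca := (ht.dd ex).smooth.continuous
  have cb := (ht.dd ey).smooth.continuous
  have cf : Continuous f := by
    rw [hf]
    unfold e1 e1q Gq Dt dv mm
    refine Continuous.sub (Continuous.sub (Continuous.div ?_ ?_ ?_) ?_) ?_
    · fun_prop
    · fun_prop
    · intro z
      have := d.hD z
      unfold Dt dv mm at this
      linarith
    · fun_prop
    · fun_prop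
  have fi : Integrable f := by
    refine (i0.const_mul (30 * M ^ 2 * t ^ 2)).mono' cf.aestronglyMeasurable ?_
    filter_upwards with z
    exact hb z
  have e : En η = (∫ z, f z) + (∫ z, (dd ex u z ^ 2 + dd ey u z ^ 2)) + t * ∫ z, e1 X Y (dd ex u) (dd ey u) z := by
    have h1 := integral_add fi i0
    have h2 := integral_add (f := fun z => f z + (dd ex u z ^ 2 + dd ey u z ^ 2)) (fi.add i0) (i1.const_mul t)
    rw [hE, ← integral_const_mul, ← h1, ← h2]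
    congr 1
    ext z
    simp only [hf]
    ring
  rw [e, add_sub_right_comm, add_sub_cancel_right, add_sub_cancel_right]
  calc |∫ z, f z| ≤ ∫ z, |f z| := abs_integral_le_integral_abs
    _ ≤ ∫ z, 30 * M ^ 2 * t ^ 2 * (dd ex u z ^ 2 + dd ey u z ^ 2) :=
      integral_mono fi.abs (i0.const_mul _) hb
    _ = _ := integral_const_mul _ _

end

end Pool.Agent.Lib.MP_f46d6a.H23
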