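import Pool.Agent.Lib.MP_f46d6a_h23.Inner3

/-!
# Inner variations: lower bound for the first eigenvalue of the deformed set
-/

set_option autoImplicit false

open MeasureTheory Set Filter Topology
open scoped ContDiff NNReal

namespace Pool.Agent.Lib.MP_f46d6a.H23

open Pool.Agent.Lib.MP_dac83a

/-- `f` is integrable with integral `c` -/
structure HI (f : P → ℝ) (c : ℝ) : Prop where
  i : Integrable f
  e : ∫ z, f z = c

namespace HI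

variable {f g : P → ℝ} {a b : ℝ}

theorem of (h : Integrable f) : HI f (∫ z, f z) := ⟨h, rfl⟩

theorem add (h : HI f a) (h' : HI g b) : HI (fun z => f z + g z) (a + b) :=
  ⟨h.i.add h'.i, by rw [integral_add h.i h'.i, h.e, h'.e]⟩

theorem sub (h : HI f a) (h' : HI g b) : HI (fun z => f z - g z) (a - b) :=
  ⟨h.i.sub h'.i, by rw [integral_sub h.i h'.i, h.e, h'.e]⟩

theorem mul (h : HI f a) (c : ℝ) : HI (fun z => c * f z) (c * a) :=
  ⟨h.i.const_mul c, by rw [integral_const_mul, h.e]⟩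

theorem mono (h : HI f a) (h' : HI g b) (hle : ∀ z, f z ≤ g z) : a ≤ b := by
  rw [← h.e, ← h'.e]
  exact integral_mono h.i h'.i hle

theorem congr (h : HI f a) (hfg : ∀ z, f z = g z) (hab : a = b) : HI g b := by
  have : f = g := funext hfg
  rw [← this, ← hab]; exact h

theorem uniq (h : HI f a) (h' : HI g b) (hfg : ∀ z, f z = g z) : a = b := by
  have : f = g := funext hfg
  rw [← h.e, ← h'.e, this]

end HI

/-- pointwise comparison of the weights -/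
theorem weight_le {t M ℓ v m C C2 : ℝ} (hM : 1 ≤ M) (ht : |t| * M ≤ 1 / 8) (hv : |v| ≤ 2 * M)
    (hm : |m| ≤ 2 * M ^ 2) (hD : 1 / 2 ≤ 1 + t * v + t ^ 2 * m) (hC0 : 0 ≤ C)
    (hC : C2 + 5 * (M ^ 2 + M * |ℓ|) ≤ C / 2) :
    (1 + t * ℓ - C * t ^ 2) * (1 + t * v + t ^ 2 * m) ≤ 1 + t * (v + ℓ) - C2 * t ^ 2 := by
  have h1 : C * t ^ 2 * (1 / 2) ≤ C * t ^ 2 * (1 + t * v + t ^ 2 * m) := by gcongr
  have e : (1 + t * ℓ - C * t ^ 2) * (1 + t * v + t ^ 2 * m)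
      = 1 + t * (v + ℓ) + t ^ 2 * (m + ℓ * v) + t ^ 2 * (t * (ℓ * m)) - C * t ^ 2 * (1 + t * v + t ^ 2 * m) := by
    ring
  have hMℓ : 0 ≤ M * |ℓ| := by positivity
  have h2 : m + ℓ * v ≤ 2 * M ^ 2 + 2 * M * |ℓ| := by
    have a1 := (abs_le.1 hm).2
    have a2 : ℓ * v ≤ |ℓ| * (2 * M) := by
      calc ℓ * v ≤ |ℓ * v| := le_abs_self _
        _ = |ℓ| * |v| := abs_mul _ _
        _ ≤ |ℓ| * (2 * M) := by gcongr
    linarith
  have h3 : t * (ℓ * m) ≤ M * |ℓ| := by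
    calc t * (ℓ * m) ≤ |t * (ℓ * m)| := le_abs_self _
      _ = |t| * |ℓ| * |m| := by rw [abs_mul, abs_mul]; ring
      _ ≤ |t| * |ℓ| * (2 * M ^ 2) := by gcongr
      _ = (|t| * M) * (2 * (M * |ℓ|)) := by ring
      _ ≤ (1 / 8) * (2 * (M * |ℓ|)) := by gcongr
      _ ≤ _ := by linarith
  have h4 : t ^ 2 * (m + ℓ * v) ≤ t ^ 2 * (2 * M ^ 2 + 2 * M * |ℓ|) := by gcongr
  have h5 : t ^ 2 * (t * (ℓ * m)) ≤ t ^ 2 * (M * |ℓ|) := by gcongr
  have h6 : t ^ 2 * (C2 + 5 * (M ^ 2 + M * |ℓ|)) ≤ t ^ 2 * (C / 2) := by gcongr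
  have h7 : 0 ≤ t ^ 2 * M ^ 2 := by positivity
  have h8 : 0 ≤ t ^ 2 * (M * |ℓ|) := by positivity
  rw [e]
  nlinarith [h1, h4, h5, h6, h7, h8]

section

variable {X Y : P → ℝ} (hX : IsTest univ X) (hY : IsTest univ Y) {t M : ℝ}

include hX hY

theorem lam_test (d : Dfm X Y t M) {Ω : Set P} {φ φx φy : P → ℝ} {γ : ℝ} (hγ : 0 < γ)
    (he : Eigf Ω 1 φ φx φy) (hn : ∫ z, φ z ^ 2 = 1)
    (hgap : ∀ v a b, H0 Ω v a b → ∫ z, v z * φ z = 0 →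
      (1 + γ) * ∫ z, v z ^ 2 ≤ ∫ z, (a z ^ 2 + b z ^ 2))
    {ℓ c0 δ K C : ℝ} (hℓ : ℓ = (∫ z, e1 X Y φx φy z) - ∫ z, φ z ^ 2 * dv X Y z)
    (hc0 : c0 = γ / (1 + γ)) (hδ : δ = c0 / 32) (hK : K = 2 * M + |ℓ|) (ht1 : |t| * K ≤ δ)
    (ht2 : 30 * M ^ 2 * t ^ 2 ≤ c0 / 8) (hC : C = 16 * (M ^ 2 + M * |ℓ|) + 60 * M ^ 2 + 8 * (K ^ 2 / δ))
    {η : P → ℝ} (hη : IsTest (Ph X Y t '' Ω) η) : (1 + t * ℓ - C * t ^ 2) * Nm η ≤ En η := by
  have hM := d.hM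
  have hc0p : 0 < c0 := by rw [hc0]; positivity
  have hδp : 0 < δ := by rw [hδ]; positivity
  have hu := test_pull hX hY d hη
  obtain ⟨u, hue⟩ : ∃ u : P → ℝ, u = fun z => η (Ph X Y t z) := ⟨_, rfl⟩
  rw [← hue] at hu
  have hE2 := En_two hX hY d hη hue
  obtain ⟨a, ha⟩ : ∃ a, a = dd ex u := ⟨_, rfl⟩
  obtain ⟨b, hb⟩ : ∃ b, b = dd ey u := ⟨_, rfl⟩
  have hHu : H0 Ω u a b := by rw [ha, hb]; exact H0.of_test hu
  rw [← ha, ← hb] at hE2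
  obtain ⟨s, hs⟩ : ∃ s, s = ∫ z, u z * φ z := ⟨_, rfl⟩
  have hHφ := he.mem
  -- orthogonal decomposition
  obtain ⟨v, hv⟩ : ∃ v : P → ℝ, v = fun z => u z - s * φ z := ⟨_, rfl⟩
  obtain ⟨a', ha'⟩ : ∃ a' : P → ℝ, a' = fun z => a z - s * φx z := ⟨_, rfl⟩
  obtain ⟨b', hb'⟩ : ∃ b' : P → ℝ, b' = fun z => b z - s * φy z := ⟨_, rfl⟩
  have hHv : H0 Ω v a' b' := by
    refine (hHu.comb hHφ 1 (-s)).congr ?_ ?_ ?_
    · rw [hv]; filter_upwards with z; ring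
    · rw [ha']; filter_upwards with z; ring
    · rw [hb']; filter_upwards with z; ring
  have iuφ : HI (fun z => u z * φ z) s := ⟨integrable_mul2 hHu.mu hHφ.mu, hs.symm⟩
  have iφφ : HI (fun z => φ z ^ 2) 1 := ⟨hHφ.mu.integrable_sq, hn⟩
  have hvφ : ∫ z, v z * φ z = 0 := by
    refine ((iuφ.sub (iφφ.mul s)).congr (g := fun z => v z * φ z) (b := 0) (fun z => ?_) (by ring)).e
    rw [hv]; ring
  have hg := hgap v a' b' hHv hvφ
  -- the energies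
  have iEφ : HI (fun z => φx z ^ 2 + φy z ^ 2) 1 := by
    refine ⟨hHφ.int_en, ?_⟩
    have := he.eq φ φx φy hHφ
    have e1 : ∫ z, (φx z ^ 2 + φy z ^ 2) = ∫ z, (φx z * φx z + φy z * φy z) := by
      congr 1; ext z; ring
    have e2 : ∫ z, φ z * φ z = 1 := by rw [← hn]; congr 1; ext z; ring
    rw [e1, this, e2]; ring
  have iX : HI (fun z => φx z * a' z + φy z * b' z) 0 := by
    refine ⟨(integrable_mul2 hHφ.ma hHv.ma).add (integrable_mul2 hHφ.mb hHv.mb), ?_⟩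
    rw [he.eq v a' b' hHv]
    have : ∫ z, φ z * v z = ∫ z, v z * φ z := by congr 1; ext z; ring
    rw [this, hvφ]; ring
  obtain ⟨Ev, hEv⟩ : ∃ E, E = ∫ z, (a' z ^ 2 + b' z ^ 2) := ⟨_, rfl⟩
  obtain ⟨Nv, hNv⟩ : ∃ E, E = ∫ z, v z ^ 2 := ⟨_, rfl⟩
  have iEv : HI (fun z => a' z ^ 2 + b' z ^ 2) Ev := ⟨hHv.int_en, hEv.symm⟩
  have iNv : HI (fun z => v z ^ 2) Nv := ⟨hHv.mu.integrable_sq, hNv.symm⟩
  rw [← hEv, ← hNv] at hg
  have hNv0 : 0 ≤ Nv := by rw [hNv]; exact integral_nonneg fun z => sq_nonneg _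
  have hEv0 : 0 ≤ Ev := by rw [hEv]; exact integral_nonneg fun z => by positivity
  have iEu : HI (fun z => a z ^ 2 + b z ^ 2) (s ^ 2 + Ev) := by
    refine (((iEφ.mul (s ^ 2)).add (iX.mul (2 * s))).add iEv).congr (fun z => ?_) (by ring)
    rw [ha', hb']; ring
  have iNu : HI (fun z => u z ^ 2) (s ^ 2 + Nv) := by
    have iφv : HI (fun z => v z * φ z) 0 := ⟨integrable_mul2 hHv.mu hHφ.mu, hvφ⟩
    refine (((iφφ.mul (s ^ 2)).add (iφv.mul (2 * s))).add iNv).congr (fun z => ?_) (by ring)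
    rw [hv]; ring
  rw [iEu.e] at hE2
  -- bounds of the coefficients
  obtain ⟨⟨c1, s1⟩, ⟨c2, s2⟩⟩ := int_div_mm hX hY
  have bk1 : ∀ z, |k1 X Y z| ≤ K := fun z => by
    calc |k1 X Y z| ≤ |dd ex X z| + |dd ey Y z| := abs_sub _ _
      _ ≤ M + M := add_le_add (d.b1 z) (d.b4 z)
      _ ≤ K := by rw [hK]; linarith [abs_nonneg ℓ]
  have bk2 : ∀ z, |k2 X Y z| ≤ K := fun z => by
    calc |k2 X Y z| ≤ |dd ey X z| + |dd ex Y z| := abs_add_le _ _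
      _ ≤ M + M := add_le_add (d.b2 z) (d.b3 z)
      _ ≤ K := by rw [hK]; linarith [abs_nonneg ℓ]
  have bdv : ∀ z, |dv X Y z| ≤ 2 * M := fun z => by
    calc |dv X Y z| ≤ |dd ex X z| + |dd ey Y z| := abs_add_le _ _
      _ ≤ M + M := add_le_add (d.b1 z) (d.b4 z)
      _ = 2 * M := by ring
  have bk3 : ∀ z, |dv X Y z + ℓ| ≤ K := fun z => by
    calc |dv X Y z + ℓ| ≤ |dv X Y z| + |ℓ| := abs_add_le _ _
      _ ≤ K := by rw [hK]; linarith [bdv z]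
  have bmm : ∀ z, |mm X Y z| ≤ 2 * M ^ 2 := fun z => by
    calc |mm X Y z| ≤ |dd ex X z * dd ey Y z| + |dd ey X z * dd ex Y z| := abs_sub _ _
      _ ≤ M * M + M * M := by
        rw [abs_mul, abs_mul]
        exact add_le_add (mul_le_mul (d.b1 z) (d.b4 z) (abs_nonneg _) (by linarith))
          (mul_le_mul (d.b2 z) (d.b3 z) (abs_nonneg _) (by linarith))
      _ = 2 * M ^ 2 := by ring
  -- integrals of the first variations
  have ie1φ : HI (fun z => e1 X Y φx φy z) (∫ z, e1 X Y φx φy z) := HI.of (int_e1 hX hY hHφ.ma hHφ.mb).1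
  have idφ : HI (fun z => φ z ^ 2 * dv X Y z) (∫ z, φ z ^ 2 * dv X Y z) :=
    HI.of (ibdd hHφ.mu.integrable_sq c1 bdv)
  have ie1u : HI (fun z => e1 X Y a b z) (∫ z, e1 X Y a b z) := HI.of (int_e1 hX hY hHu.ma hHu.mb).1
  have c3 : Continuous fun z => dv X Y z + ℓ := c1.add continuous_const
  have idu : HI (fun z => u z ^ 2 * (dv X Y z + ℓ)) (∫ z, u z ^ 2 * (dv X Y z + ℓ)) :=
    HI.of (ibdd hHu.mu.integrable_sq c3 bk3)
  -- the integrated quadratic inequality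
  have hq : t * s ^ 2 * ((∫ z, e1 X Y φx φy z) - ((∫ z, φ z ^ 2 * dv X Y z) + ℓ * 1))
      - 2 * (K ^ 2 / δ) * t ^ 2 * s ^ 2 * (1 + 1) - 4 * δ * (Ev + Nv)
      ≤ t * ((∫ z, e1 X Y a b z) - ∫ z, u z ^ 2 * (dv X Y z + ℓ)) := by
    refine ((((ie1φ.sub (idφ.add (iφφ.mul ℓ))).mul (t * s ^ 2)).sub
      ((iEφ.add iφφ).mul (2 * (K ^ 2 / δ) * t ^ 2 * s ^ 2))).sub ((iEv.add iNv).mul (4 * δ))).mono
      ((ie1u.sub idu).mul t) (fun z => ?_)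
    have h := quad_low (k1 := k1 X Y z) (k2 := k2 X Y z) (k3 := dv X Y z + ℓ) (s := s) (x1 := φx z)
      (x2 := φy z) (x3 := φ z) (y1 := a' z) (y2 := b' z) (y3 := v z) hδp (bk1 z) (bk2 z) (bk3 z) ht1
    have e1' : s * φx z + a' z = a z := by rw [ha']; ring
    have e2' : s * φy z + b' z = b z := by rw [hb']; ring
    have e3' : s * φ z + v z = u z := by rw [hv]; ring
    rw [e1', e2', e3'] at h
    simp only [e1_eq]
    calc _ = t * s ^ 2 * ((φy z ^ 2 - φx z ^ 2) * k1 X Y z - 2 * φx z * φy z * k2 X Y z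
          - φ z ^ 2 * (dv X Y z + ℓ))
        - 2 * (K ^ 2 / δ) * t ^ 2 * s ^ 2 * (φx z ^ 2 + φy z ^ 2 + φ z ^ 2)
        - 4 * δ * (a' z ^ 2 + b' z ^ 2 + v z ^ 2) := by ring
      _ ≤ _ := h
      _ = _ := by ring
  have h0 : (∫ z, e1 X Y φx φy z) - ((∫ z, φ z ^ 2 * dv X Y z) + ℓ * 1) = 0 := by rw [hℓ]; ring
  rw [h0, mul_zero, zero_sub] at hq
  -- the L² norm
  have hNη : Nm η = ∫ z, u z ^ 2 * Dt X Y t z := by
    unfold Nm
    rw [cov hX hY d, hue]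
  have cD : Continuous (Dt X Y t) := by
    unfold Dt
    exact (continuous_const.add (continuous_const.mul c1)).add (continuous_const.mul c2)
  have bD : ∀ z, |Dt X Y t z| ≤ 2 := fun z => by
    have h1 : |t * dv X Y z| ≤ 1 / 4 := by
      rw [abs_mul]
      calc |t| * |dv X Y z| ≤ |t| * (2 * M) := by gcongr; exact bdv z
        _ = (|t| * M) * 2 := by ring
        _ ≤ (1 / 8) * 2 := by gcongr; exact d.ht
        _ = _ := by norm_num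
    have h2 : |t ^ 2 * mm X Y z| ≤ 1 / 4 := by
      rw [abs_mul, abs_pow]
      calc |t| ^ 2 * |mm X Y z| ≤ |t| ^ 2 * (2 * M ^ 2) := by gcongr; exact bmm z
        _ = (|t| * M) ^ 2 * 2 := by ring
        _ ≤ (1 / 8) ^ 2 * 2 := by gcongr; exact d.ht
        _ ≤ _ := by norm_num
    rw [abs_le] at h1 h2 ⊢
    unfold Dt
    constructor <;> linarith [h1.1, h1.2, h2.1, h2.2]
  have iD : HI (fun z => u z ^ 2 * Dt X Y t z) (Nm η) :=
    ⟨ibdd hHu.mu.integrable_sq cD bD, hNη.symm⟩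
  have hKδ : 0 ≤ K ^ 2 / δ := by positivity
  have hMℓ : 0 ≤ M * |ℓ| := by positivity
  obtain ⟨C2, hC2⟩ : ∃ C2, C2 = 30 * M ^ 2 + 4 * (K ^ 2 / δ) := ⟨_, rfl⟩
  have hC20 : 0 ≤ C2 := by rw [hC2]; positivity
  have hw : (1 + t * ℓ - C * t ^ 2) * Nm η
      ≤ (1 - C2 * t ^ 2) * (s ^ 2 + Nv) + t * ∫ z, u z ^ 2 * (dv X Y z + ℓ) := by
    refine (iD.mul (1 + t * ℓ - C * t ^ 2)).mono ((iNu.mul (1 - C2 * t ^ 2)).add (idu.mul t)) (fun z => ?_)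
    have h := weight_le (t := t) (ℓ := ℓ) (C := C) (C2 := C2) hM d.ht (bdv z) (bmm z) (d.hD z)
      (by rw [hC]; positivity) (by rw [hC, hC2]; nlinarith [sq_nonneg M])
    have h' := mul_le_mul_of_nonneg_left h (sq_nonneg (u z))
    calc _ = u z ^ 2 * ((1 + t * ℓ - C * t ^ 2) * (1 + t * dv X Y z + t ^ 2 * mm X Y z)) := by
          unfold Dt; ring
      _ ≤ _ := h'
      _ = _ := by ring
  refine hw.trans ?_
  have hlow := (abs_le.1 hE2).1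
  -- final arithmetic
  have g1 : Nv ≤ (1 - c0) * Ev := by
    have : 1 - c0 = 1 / (1 + γ) := by rw [hc0]; field_simp; ring
    rw [this, div_mul_eq_mul_div, one_mul, le_div_iff₀ (by positivity)]
    linarith
  have g2 : 30 * M ^ 2 * t ^ 2 * Ev ≤ c0 / 8 * Ev := by gcongr
  have g3 : 0 ≤ C2 * t ^ 2 * Nv := by positivity
  have g4 : 0 ≤ c0 * Ev := by positivity
  have g5 : δ * Nv ≤ δ * Ev := by
    apply mul_le_mul_of_nonneg_left _ hδp.le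
    linarith
  have g6 : δ * Ev = c0 * Ev / 32 := by rw [hδ]; ring
  have g7 : C2 * t ^ 2 * s ^ 2 = 30 * M ^ 2 * t ^ 2 * s ^ 2 + 4 * (K ^ 2 / δ) * t ^ 2 * s ^ 2 := by
    rw [hC2]; ring
  linarith [g1, g2, g3, g4, g5, g6, g7, hq, hlow]

end

end Pool.Agent.Lib.MP_f46d6a.H23
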